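import Mathlib

/-!
# Mahler's conjecture for all convex bodies: definitions and statements of the parts (swarm MAH)

No lattice: everything lives on `E d = EuclideanSpace ℝ (Fin d)` with Lebesgue measure, all functions
are Lipschitz.  A probability density is written `exp (-ψ)`.  See `team-store get MAH_BLUEPRINT.md`.
-/

set_option autoImplicit false

noncomputable section

open MeasureTheory Filter Topology Set
open scoped ENNReal InnerProductSpace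

namespace Helper82.MAH

/-- the space -/
abbrev E (d : ℕ) := EuclideanSpace ℝ (Fin d)

/-- a closed convex cone with nonempty interior, and a linear form which is positive on it -/
structure CC (d : ℕ) where
  C : Set (E d)
  e : E d
  closed : IsClosed C
  zero_mem : (0 : E d) ∈ C
  add_mem : ∀ x ∈ C, ∀ y ∈ C, x + y ∈ C
  smul_mem : ∀ r : ℝ, 0 ≤ r → ∀ x ∈ C, r • x ∈ C
  int : (interior C).Nonempty
  pos : ∀ x ∈ C, x ≠ 0 → 0 < ⟪e, x⟫_ℝ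

variable {d : ℕ}

/-- `N_{a,b}(x) = inf {a e(u) + b e(v) : x = u - v, u, v in C}` -/
def nrm (K : CC d) (a b : ℝ) (x : E d) : ℝ :=
  sInf {r | ∃ u ∈ K.C, ∃ v ∈ K.C, x = u - v ∧ r = a * ⟪K.e, u⟫_ℝ + b * ⟪K.e, v⟫_ℝ}

/-- up slope at most `a`, down slope at most `b` -/
def Cl (K : CC d) (a b : ℝ) (ψ : E d → ℝ) : Prop :=
  ∀ x, ∀ v ∈ K.C, ψ (x + v) ≤ ψ x + a * ⟪K.e, v⟫_ℝ ∧ ψ (x - v) ≤ ψ x + b * ⟪K.e, v⟫_ℝ

/-- some slopes, and `exp (-ψ) ≤ exp (c - n)` with `n = N_{1,1}` -/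
def SG (K : CC d) (ψ : E d → ℝ) : Prop :=
  (∃ M, Cl K M M ψ) ∧ ∃ c, ∀ x, nrm K 1 1 x - c ≤ ψ x

/-- `exp (-ψ)` is a probability density, with the bounds of `SG` -/
def Good (K : CC d) (ψ : E d → ℝ) : Prop := SG K ψ ∧ ∫ x, Real.exp (-ψ x) = 1

/-- entropy of the density `exp (-ψ)` -/
def Ent (ψ : E d → ℝ) : ℝ := ∫ x, Real.exp (-ψ x) * ψ x

/-- the functional (`exp (-β)` is the given density) -/
def Phi (β θ : E d → ℝ) : ℝ := ∫ x, (Real.exp (-β x) * θ x + Real.exp (-θ x))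

/-- `ψ` minimises `Phi β` in the class `Cl a b` -/
def IsP (K : CC d) (a b : ℝ) (β ψ : E d → ℝ) : Prop :=
  SG K ψ ∧ Cl K a b ψ ∧
    ∀ θ, Cl K a b θ → Integrable (fun x => Real.exp (-θ x)) → Phi β ψ ≤ Phi β θ

/-- first order condition -/
def FO (K : CC d) (a b : ℝ) (β ψ : E d → ℝ) : Prop :=
  ∀ f, Cl K a b f → ∫ x, (Real.exp (-ψ x) - Real.exp (-β x)) * f x ≤
    ∫ x, (Real.exp (-ψ x) - Real.exp (-β x)) * ψ x

/-- the order interval `[0, e]` of the dual cone -/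
def Vst (K : CC d) : Set (E d) := {y | ∀ v ∈ K.C, 0 ≤ ⟪y, v⟫_ℝ ∧ ⟪y, v⟫_ℝ ≤ ⟪K.e, v⟫_ℝ}

/-- the order interval `[0, z]` of `C` -/
def Vin (K : CC d) (z : E d) : Set (E d) := {x | x ∈ K.C ∧ z - x ∈ K.C}

/-! ### block N: the gauge -/

/-- NRM: the gauge -/
def S_NRM : Prop :=
  ∀ (d : ℕ) (K : CC d) (a b : ℝ), 0 < a → 0 < b →
    (∀ x, ∃ u ∈ K.C, ∃ v ∈ K.C, x = u - v ∧ nrm K a b x = a * ⟪K.e, u⟫_ℝ + b * ⟪K.e, v⟫_ℝ) ∧
    (∀ x, ∀ u ∈ K.C, ∀ v ∈ K.C, x = u - v → nrm K a b x ≤ a * ⟪K.e, u⟫_ℝ + b * ⟪K.e, v⟫_ℝ) ∧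
    (∀ x, 0 ≤ nrm K a b x) ∧
    (∀ x y, nrm K a b (x + y) ≤ nrm K a b x + nrm K a b y) ∧
    (∀ r : ℝ, 0 ≤ r → ∀ x, nrm K a b (r • x) = r * nrm K a b x) ∧
    (∀ v ∈ K.C, nrm K a b v = a * ⟪K.e, v⟫_ℝ) ∧
    (∀ v ∈ K.C, nrm K a b (-v) = b * ⟪K.e, v⟫_ℝ) ∧
    (∃ c, 0 < c ∧ ∀ x, c * ‖x‖ ≤ nrm K a b x) ∧
    (∃ c, 0 < c ∧ ∀ x, nrm K a b x ≤ c * ‖x‖) ∧
    (∃ c, 0 < c ∧ ∀ x y, |nrm K a b x - nrm K a b y| ≤ c * ‖x - y‖)

/-- CLS: classes and the gauge -/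
def S_CLS : Prop :=
  ∀ (d : ℕ) (K : CC d) (a b : ℝ), 0 < a → 0 < b →
    Cl K a b (nrm K a b) ∧
    (∀ ψ : E d → ℝ, Cl K a b ψ ↔ ∀ x v, ψ (x + v) ≤ ψ x + nrm K a b v) ∧
    (∀ ψ : E d → ℝ, Cl K a b ψ → ∃ c, 0 < c ∧ ∀ x y, |ψ x - ψ y| ≤ c * ‖x - y‖)

/-- INT: integrability -/
def S_INT : Prop :=
  ∀ (d : ℕ) (c : ℝ) (k : ℕ), 0 < c →
    Integrable (fun x : E d => (1 + ‖x‖) ^ k * Real.exp (-(c * ‖x‖)))

/-- ITG: integrability for the classes -/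
def S_ITG : Prop :=
  ∀ (d : ℕ) (K : CC d) (ψ f : E d → ℝ) (M : ℝ), SG K ψ → Cl K M M f →
    Integrable (fun x => Real.exp (-ψ x)) ∧ Integrable (fun x => Real.exp (-ψ x) * f x)

/-! ### block P: projections -/

/-- EXI: existence -/
def S_EXI : Prop :=
  ∀ (d : ℕ) (K : CC d) (a b : ℝ) (β : E d → ℝ), 1 ≤ a → 1 ≤ b → SG K β → ∃ ψ, IsP K a b β ψ

/-- CMP: comparison (and uniqueness, for `β₁ = β₂`) -/
def S_CMP : Prop :=
  ∀ (d : ℕ) (K : CC d) (a b : ℝ) (β₁ β₂ ψ₁ ψ₂ : E d → ℝ), 1 ≤ a → 1 ≤ b → SG K β₁ → SG K β₂ →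
    (∀ x, β₁ x ≤ β₂ x) → IsP K a b β₁ ψ₁ → IsP K a b β₂ ψ₂ → ∀ x, ψ₁ x ≤ ψ₂ x

/-- STB: stability of the slopes -/
def S_STB : Prop :=
  ∀ (d : ℕ) (K : CC d) (a b a' b' : ℝ) (β ψ : E d → ℝ), 1 ≤ a → 1 ≤ b → SG K β →
    IsP K a b β ψ → Cl K a' b' β → Cl K a' b' ψ

/-- MAS: mass -/
def S_MAS : Prop :=
  ∀ (d : ℕ) (K : CC d) (a b : ℝ) (β ψ : E d → ℝ), 1 ≤ a → 1 ≤ b → SG K β → IsP K a b β ψ →
    ∫ x, Real.exp (-ψ x) = ∫ x, Real.exp (-β x)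

/-- FOC: the first order condition -/
def S_FOC : Prop :=
  ∀ (d : ℕ) (K : CC d) (a b : ℝ) (β ψ : E d → ℝ), 1 ≤ a → 1 ≤ b → SG K β → IsP K a b β ψ →
    FO K a b β ψ

/-- PROJ: all facts on the projections -/
def S_PROJ : Prop :=
  ∀ (d : ℕ) (K : CC d) (a b : ℝ) (β : E d → ℝ), 1 ≤ a → 1 ≤ b → Good K β →
    ∃ ψ, Good K ψ ∧ Cl K a b ψ ∧ (∀ a' b', Cl K a' b' β → Cl K a' b' ψ) ∧ FO K a b β ψ

theorem proj (h1 : S_EXI) (h2 : S_STB) (h3 : S_MAS) (h4 : S_FOC) : S_PROJ := by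
  intro d K a b β ha hb hβ
  obtain ⟨ψ, hψ⟩ := h1 d K a b β ha hb hβ.1
  exact ⟨ψ, ⟨hψ.1, (h3 d K a b β ψ ha hb hβ.1 hψ).trans hβ.2⟩, hψ.2.1,
    fun a' b' h => h2 d K a b a' b' β ψ ha hb hβ.1 hψ h, h4 d K a b β ψ ha hb hβ.1 hψ⟩

/-! ### block W: the path -/

/-- GIB: Gibbs' inequality -/
def S_GIB : Prop :=
  ∀ (d : ℕ) (K : CC d) (ψ f : E d → ℝ) (M : ℝ), Good K ψ → Cl K M M f →
    Integrable (fun x => Real.exp (-f x)) →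
    Ent ψ ≤ (∫ x, Real.exp (-ψ x) * f x) + Real.log (∫ x, Real.exp (-f x))

/-- STEP: one step of the path -/
def S_STEP : Prop :=
  ∀ (d : ℕ) (K : CC d) (M s s' : ℝ) (R R' G G' : E d → ℝ), 0 < s → s < s' → s' < 1 →
    Good K R → Good K R' → Good K G → Good K G' →
    Cl K (1 / (1 - s)) (1 / s) G → 1 / (1 - s) ≤ M → 1 / ((1 - s') * s) ≤ M →
    FO K M (1 / s') R R' → FO K (1 / (1 - s')) M R' G' →
    (1 - s') * (∫ x, Real.exp (-R' x) * G' x) + (s' - s) * Ent G' ≤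
      (1 - s) * (∫ x, Real.exp (-R x) * G x) +
        (1 - s) * (s' / s) * ∫ x, (Real.exp (-R' x) - Real.exp (-R x)) * R' x

/-- STEPR: one step, the second sequence -/
def S_STEPR : Prop :=
  ∀ (d : ℕ) (K : CC d) (M M0 s : ℝ) (R R' φ : E d → ℝ), 0 < s → s < 1 →
    Good K R → Good K R' → Cl K M0 1 φ → 1 ≤ M0 → M0 / s ≤ M → FO K M (1 / s) R R' →
    0 ≤ (∫ x, (Real.exp (-R' x) - Real.exp (-R x)) * R' x) ∧
    (∫ x, (Real.exp (-R' x) - Real.exp (-R x)) * R' x) ≤ Ent R' - Ent R ∧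
    (∫ x, Real.exp (-R' x) * φ x) - (∫ x, Real.exp (-R x) * φ x) ≤
      s * ∫ x, (Real.exp (-R' x) - Real.exp (-R x)) * R' x

/-- PATHN: the path with `N` steps of ratio `ρ = (s1 / s0) ^ (1 / N)` -/
def S_PATHN : Prop :=
  ∀ (d : ℕ) (K : CC d) (s0 s1 M0 D : ℝ) (R0 φ0 φz : E d → ℝ), 0 < s0 → s0 < s1 → s1 < 1 →
    1 ≤ M0 → Good K R0 → Cl K M0 (1 / s0) R0 → Cl K 1 M0 φ0 → Cl K M0 1 φz →
    Integrable (fun x => Real.exp (-(φ0 x / (1 - s0)))) → Integrable (fun x => Real.exp (-φz x)) →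
    (∀ s, s0 ≤ s → s ≤ s1 → ∀ G, Good K G → Cl K (1 / (1 - s)) (1 / s) G → D ≤ Ent G) →
    ∀ N : ℕ, 0 < N →
    (s1 - s0) * D ≤ (1 - s0) * Real.log (∫ x, Real.exp (-(φ0 x / (1 - s0)))) +
      (∫ x, Real.exp (-R0 x) * φ0 x) - (1 - s1) * Ent R0 +
      (1 + ((s1 / s0) ^ (1 / (N : ℝ)) - 1) / (1 - s1)) *
        (Real.log (∫ x, Real.exp (-φz x)) + (∫ x, Real.exp (-R0 x) * φz x) - Ent R0)

/-- PATH: the limit `N → ∞` -/
def S_PATH : Prop :=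
  ∀ (d : ℕ) (K : CC d) (s0 s1 M0 D : ℝ) (R0 φ0 φz : E d → ℝ), 0 < s0 → s0 < s1 → s1 < 1 →
    1 ≤ M0 → Good K R0 → Cl K M0 (1 / s0) R0 → Cl K 1 M0 φ0 → Cl K M0 1 φz →
    Integrable (fun x => Real.exp (-(φ0 x / (1 - s0)))) → Integrable (fun x => Real.exp (-φz x)) →
    (∀ s, s0 ≤ s → s ≤ s1 → ∀ G, Good K G → Cl K (1 / (1 - s)) (1 / s) G → D ≤ Ent G) →
    (s1 - s0) * D ≤ (1 - s0) * Real.log (∫ x, Real.exp (-(φ0 x / (1 - s0)))) +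
      (∫ x, Real.exp (-R0 x) * φ0 x) +
      Real.log (∫ x, Real.exp (-φz x)) + (∫ x, Real.exp (-R0 x) * φz x) - (2 - s1) * Ent R0

/-! ### block S: the entropy bound (S5 and the lens) -/

/-- EB -/
def S_EB : Prop :=
  ∀ (d : ℕ) (K : CC d) (s : ℝ) (G : E d → ℝ), 0 < s → s < 1 → Good K G →
    Cl K (1 / (1 - s)) (1 / s) G → (d : ℝ) - Real.log (volume (Vst K)).toReal ≤ Ent G

/-! ### block L: the limit -/

/-- distance to `[0, z]` -/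
def pz (K : CC d) (z : E d) (x : E d) : ℝ := sInf {r | ∃ y ∈ Vin K z, r = nrm K 1 1 (x - y)}

/-- PZ: properties of the distance -/
def S_PZ : Prop :=
  ∀ (d : ℕ) (K : CC d) (z : E d), z ∈ K.C →
    IsCompact (Vin K z) ∧
    (∀ x, 0 ≤ pz K z x) ∧ (∀ x ∈ Vin K z, pz K z x = 0) ∧ (∀ x, pz K z x = 0 → x ∈ Vin K z) ∧
    (∀ L : ℝ, 0 ≤ L → Cl K L L (fun x => L * pz K z x)) ∧
    (∃ c, ∀ x, nrm K 1 1 x - c ≤ pz K z x)

/-- VOL: the order intervals have positive finite volume -/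
def S_VOL : Prop :=
  ∀ (d : ℕ) (K : CC d) (z : E d), z ∈ interior K.C →
    0 < (volume (Vin K z)).toReal ∧ 0 < (volume (Vst K)).toReal

/-- NLM: the inequality with the penalties `L` and `M` -/
def S_NLM : Prop :=
  ∀ (d : ℕ) (K : CC d) (z : E d) (L M : ℝ), z ∈ interior K.C → 2 < L → 1 ≤ M →
    (1 - 2 / L) * ((d : ℝ) - Real.log (volume (Vst K)).toReal) ≤
      (2 - 1 / L) * Real.log (∫ x, Real.exp (-nrm K 1 M x)) + ⟪K.e, z⟫_ℝ +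
      (∫ x, Real.exp (-(L * pz K z x)) * (nrm K 1 M x + nrm K 1 M (z - x) - ⟪K.e, z⟫_ℝ)) /
        (volume (Vin K z)).toReal - (1 + 1 / L) * Real.log (volume (Vin K z)).toReal

/-- LIL: the limit of the penalty term -/
def S_LIL : Prop :=
  ∀ (d : ℕ) (K : CC d) (z : E d) (M : ℝ), z ∈ interior K.C → 1 ≤ M →
    Tendsto (fun L : ℕ => ∫ x, Real.exp (-((L : ℝ) * pz K z x)) *
      (nrm K 1 M x + nrm K 1 M (z - x) - ⟪K.e, z⟫_ℝ)) atTop (𝓝 0)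

/-- LIM: the limit in `M` -/
def S_LIM : Prop :=
  ∀ (d : ℕ) (K : CC d),
    Tendsto (fun M : ℕ => ∫ x, Real.exp (-nrm K 1 M x)) atTop
      (𝓝 (∫ x in K.C, Real.exp (-⟪K.e, x⟫_ℝ))) ∧
    0 < ∫ x in K.C, Real.exp (-⟪K.e, x⟫_ℝ)

/-- N1 -/
def S_N1 : Prop :=
  ∀ (d : ℕ) (K : CC d) (z : E d), z ∈ interior K.C →
    (d : ℝ) + Real.log (volume (Vin K z)).toReal ≤
      2 * Real.log (∫ x in K.C, Real.exp (-⟪K.e, x⟫_ℝ)) + ⟪K.e, z⟫_ℝ +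
        Real.log (volume (Vst K)).toReal

/-! ### block K: cones over convex bodies, and the final inequality -/

/-- the cone over `K × {1}` (coordinate `0` is the height) -/
def cone {n : ℕ} (K : Set (Fin n → ℝ)) : Set (E (n + 1)) :=
  {v | 0 ≤ v 0 ∧ ∃ x ∈ K, ∀ i : Fin n, v i.succ = v 0 * x i}

/-- the vector `r` times the height direction -/
def top (n : ℕ) (r : ℝ) : E (n + 1) := EuclideanSpace.single 0 r

/-- the polar body -/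
def Polar {n : ℕ} (K : Set (Fin n → ℝ)) : Set (Fin n → ℝ) := {y | ∀ x ∈ K, ∑ i, x i * y i ≤ 1}

/-- `K` compact convex, `0` in the interior -/
def OB {n : ℕ} (K : Set (Fin n → ℝ)) : Prop :=
  IsCompact K ∧ Convex ℝ K ∧ (0 : Fin n → ℝ) ∈ interior K

/-- CON: the cone over a body is a cone of the theory -/
def S_CON : Prop :=
  ∀ (n : ℕ) (K : Set (Fin n → ℝ)), OB K →
    ∃ Q : CC (n + 1), Q.C = cone K ∧ Q.e = top n 1 ∧ ∀ r : ℝ, 0 < r → top n r ∈ interior Q.C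

/-- CVO: the integral over the cone -/
def S_CVO : Prop :=
  ∀ (n : ℕ) (K : Set (Fin n → ℝ)), OB K →
    ∫ x in cone K, Real.exp (-⟪top n 1, x⟫_ℝ) = (n.factorial : ℝ) * (volume K).toReal

/-- CIN: order intervals of the cone: scaling -/
def S_CIN : Prop :=
  ∀ (n : ℕ) (K : Set (Fin n → ℝ)) (r : ℝ), OB K → 0 < r →
    (volume {x | x ∈ cone K ∧ top n r - x ∈ cone K}).toReal =
      r ^ (n + 1) * (volume {x | x ∈ cone K ∧ top n 1 - x ∈ cone K}).toReal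

/-- CST: the dual order interval is the order interval of the cone over the polar body -/
def S_CST : Prop :=
  ∀ (n : ℕ) (K : Set (Fin n → ℝ)), OB K →
    volume {y : E (n + 1) | ∀ v ∈ cone K, 0 ≤ ⟪y, v⟫_ℝ ∧ ⟪y, v⟫_ℝ ≤ ⟪top n 1, v⟫_ℝ} =
      volume {x | x ∈ cone (Polar K) ∧ top n 1 - x ∈ cone (Polar K)}

/-- BIP: the polar body -/
def S_BIP : Prop :=
  ∀ (n : ℕ) (K : Set (Fin n → ℝ)), OB K → OB (Polar K) ∧ Polar (Polar K) = K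

/-- MAHLER: the volume product -/
def S_MAH : Prop :=
  ∀ (n : ℕ) (K : Set (Fin n → ℝ)), OB K →
    ENNReal.ofReal (((n : ℝ) + 1) ^ (n + 1) / (n.factorial : ℝ) ^ 2) ≤ volume K * volume (Polar K)

end Helper82.MAH
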