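import Pool.Agent.Helper82.MAH.Spec
import Pool.Agent.Helper68.MAH.Dual

/-!
# The inequality (N1) from the inequalities with penalties
-/

set_option autoImplicit false

noncomputable section

open MeasureTheory Filter Topology Set
open scoped ENNReal InnerProductSpace

namespace Helper82.MAH

theorem n1 (h1 : S_NLM) (h2 : S_LIL) (h3 : S_LIM) : S_N1 := by
  intro d K z hz
  set A : ℝ := (d : ℝ) - Real.log (volume (Vst K)).toReal with hA
  set V : ℝ := (volume (Vin K z)).toReal with hV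
  have step : ∀ M : ℕ, 1 ≤ M → A ≤ 2 * Real.log (∫ x, Real.exp (-nrm K 1 M x)) + ⟪K.e, z⟫_ℝ -
      Real.log V := by
    intro M hM
    have hM' : (1 : ℝ) ≤ (M : ℝ) := by exact_mod_cast hM
    have t0 : Tendsto (fun L : ℕ => 1 / (L : ℝ)) atTop (𝓝 0) := tendsto_one_div_atTop_nhds_zero_nat
    have tl := h2 d K z M hz hM'
    have l1 : Tendsto (fun L : ℕ => (1 - 2 * (1 / (L : ℝ))) * A) atTop (𝓝 ((1 - 2 * 0) * A)) :=
      (tendsto_const_nhds.sub (t0.const_mul 2)).mul_const A
    have l2 : Tendsto (fun L : ℕ => (2 - 1 / (L : ℝ)) * Real.log (∫ x, Real.exp (-nrm K 1 M x)) +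
        ⟪K.e, z⟫_ℝ + (∫ x, Real.exp (-((L : ℝ) * pz K z x)) *
          (nrm K 1 M x + nrm K 1 M (z - x) - ⟪K.e, z⟫_ℝ)) / V - (1 + 1 / (L : ℝ)) * Real.log V)
        atTop (𝓝 ((2 - 0) * Real.log (∫ x, Real.exp (-nrm K 1 M x)) + ⟪K.e, z⟫_ℝ + 0 / V -
          (1 + 0) * Real.log V)) :=
      (((((tendsto_const_nhds.sub t0).mul_const _).add_const _).add (tl.div_const V))).sub
        ((tendsto_const_nhds.add t0).mul_const _)
    have key := le_of_tendsto_of_tendsto l1 l2 ?_
    · simpa using key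
    · filter_upwards [eventually_gt_atTop 2] with L hL
      have hL' : (2 : ℝ) < (L : ℝ) := by exact_mod_cast hL
      have := h1 d K z L M hz hL' hM'
      have e : (1 : ℝ) - 2 / (L : ℝ) = 1 - 2 * (1 / (L : ℝ)) := by ring
      rw [e] at this
      exact this
  obtain ⟨hlim, hpos⟩ := h3 d K
  have l3 : Tendsto (fun M : ℕ => 2 * Real.log (∫ x, Real.exp (-nrm K 1 M x)) + ⟪K.e, z⟫_ℝ -
      Real.log V) atTop (𝓝 (2 * Real.log (∫ x in K.C, Real.exp (-⟪K.e, x⟫_ℝ)) + ⟪K.e, z⟫_ℝ -
        Real.log V)) :=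
    (((hlim.log hpos.ne').const_mul 2).add_const _).sub_const _
  have := ge_of_tendsto l3 (by
    filter_upwards [eventually_ge_atTop 1] with M hM
    exact step M hM)
  rw [hA] at this
  linarith

/-- the form used in `Helper68/MAH/Dual.lean` -/
theorem n1' (h : S_N1) : Pool.Agent.Helper68.MAH.S_N1 := by
  intro n C e z hC he hz
  let K : CC n := {
    C := C
    e := e
    closed := hC.closed
    zero_mem := hC.zero
    add_mem := by
      intro x hx y hy
      have h1 := hC.convex hx hy (by norm_num : (0 : ℝ) ≤ 1 / 2) (by norm_num : (0 : ℝ) ≤ 1 / 2)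
        (by norm_num)
      have h2 := hC.smul _ h1 2 (by norm_num)
      rw [smul_add, smul_smul, smul_smul] at h2
      norm_num at h2
      exact h2
    smul_mem := fun r hr x hx => hC.smul x hx r hr
    int := hC.int
    pos := he }
  have := h n K z hz
  have e1 : Pool.Agent.Helper68.MAH.vI C z = (volume (Vin K z)).toReal := rfl
  have e2 : Pool.Agent.Helper68.MAH.vS C e = (volume (Vst K)).toReal := rfl
  have e3 : Pool.Agent.Helper68.MAH.phi C e = ∫ x in K.C, Real.exp (-⟪K.e, x⟫_ℝ) := rfl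
  rw [e1, e2, e3]
  linarith

end Helper82.MAH
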