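import Pool.Agent.Helper82.MAH.Main0
import Pool.Agent.Helper82.MAH.ConeOver
import Pool.Agent.Helper7.MAH.EXI
import Pool.Agent.Helper12.MAH.CVO
import Pool.Agent.Helper14.MAH.PATHL
import Pool.Agent.Helper34.MAH.MAH
import Pool.Agent.Helper54.MAH.EB
import Pool.Agent.Helper71.MAH.NRM
import Pool.Agent.Helper73.MAH.CIN
import Pool.Agent.Helper77.MAH.BIP
import Pool.Agent.Helper81.MAH.CST

/-!
# Assembly: Mahler's inequality for all convex bodies
-/

set_option autoImplicit false

noncomputable section

open MeasureTheory Filter Topology Set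
open scoped ENNReal InnerProductSpace

namespace Helper82.MAH

theorem mahler_of_eb (eb : S_NRM → S_CLS → S_ITG → S_EB) : S_MAH := by
  have hnrm : S_NRM := Pool.Agent.Helper71.MAH.NRM.main
  have hn1 : S_N1 := main_n1 hnrm (fun _ hI hC => Pool.Agent.Helper7.MAH.EXI.main hnrm hC hI)
    Pool.Agent.Helper14.MAHPATHL.main (eb hnrm)
  have hvol : S_VOL := Pool.Agent.Helper78.MAH.VOL.main hnrm
  exact Pool.Agent.Helper34.MAH.Fin.main hn1 hvol CON.main Pool.Agent.Helper12.MAH.CVO.main
    Pool.Agent.Helper73.MAH.CIN.main Pool.Agent.Helper81.MAH.CST.main Helper77.MAH.main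

/-- **Mahler's inequality for all convex bodies** -/
theorem mahler : S_MAH := mahler_of_eb Pool.Agent.Helper54.MAH.EB.main

end Helper82.MAH
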