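import Pool.Agent.Helper82.MAH.N1
import Pool.Agent.Helper2.MAH.LIM
import Pool.Agent.Helper18.MAH.LIL
import Pool.Agent.Helper29.MAH.PZ
import Pool.Agent.Helper44.MAH.STEPR
import Pool.Agent.Helper54.MAH.PATHN
import Pool.Agent.Helper56.MAH.FOC
import Pool.Agent.Helper56.MAH.MAS
import Pool.Agent.Helper57.MAH.INT
import Pool.Agent.Helper63.MAH.CLS
import Pool.Agent.Helper66.MAH.NLM
import Pool.Agent.Helper74.MAH.CMP
import Pool.Agent.Helper76.MAH.STB
import Pool.Agent.Helper78.MAH.VOL
import Pool.Agent.Helper89.MAH.STEP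
import Pool.Agent.Helper98.MAH.GIB

/-!
# Assembly
-/

set_option autoImplicit false

noncomputable section

open MeasureTheory Filter Topology Set
open scoped ENNReal InnerProductSpace

namespace Helper82.MAH

theorem main_n1 (nrm' : S_NRM) (exi : S_INT → S_ITG → S_CLS → S_EXI) (path : S_PATHN → S_PATH)
    (eb : S_CLS → S_ITG → S_EB) : S_N1 := by
  have hint : S_INT := Pool.Agent.Helper57.MAH.int_main
  have hcls : S_CLS := Pool.Agent.Helper63.MAH.CLS.main nrm'
  have hitg : S_ITG := Pool.Agent.Helper57.MAH.itg_main nrm' hcls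
  have hcmp : S_CMP := Helper74.MAHCMP.main hcls hitg
  have hstb : S_STB := Pool.Agent.Helper76.MAH.STB.main hcmp nrm' hitg
  have hfoc : S_FOC := Pool.Agent.Helper56.MAH.FOC.main nrm' hcls hint hitg
  have hmas : S_MAS := Pool.Agent.Helper56.MAH.MAS.main nrm' hcls hint hitg
  have hproj : S_PROJ := proj (exi hint hitg hcls) hstb hmas hfoc
  have hgib : S_GIB := Pool.Agent.Helper98.MAH.GIB.main hitg
  have hstep : S_STEP := Pool.Agent.Helper89.MAH.STEP.main hgib hitg
  have hstepr : S_STEPR := Pool.Agent.Helper44.MAH.STEPR.main hgib hitg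
  have hpath : S_PATH := path (Pool.Agent.Helper54.MAH.PATHN.main hproj hstep hstepr hgib hitg)
  have hpz : S_PZ := Helper29.MAH.PZ.main nrm'
  have hvol : S_VOL := Pool.Agent.Helper78.MAH.VOL.main nrm'
  have hnlm : S_NLM := Pool.Agent.Helper66.MAH.NLM.main hpath (eb hcls hitg) hpz hvol nrm' hcls hitg
  have hlil : S_LIL := Pool.Agent.Helper18.MAH.LIL.main nrm' hcls hitg hpz
  have hlim : S_LIM := Pool.Agent.Helper2.MAH.LIM.main nrm' hint
  exact n1 hnlm hlil hlim

end Helper82.MAH
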